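import Pool.Agent.Helper95.KZ.Goals

/-!
# Project KZ, packet JMP
-/

set_option autoImplicit false

namespace Pool.Agent.Helper7.KZ

open Pool.Agent.Helper52.Wq2 Pool.Agent.Helper61.NW Pool.Agent.Helper95.KZ

universe u

theorem conn_union_mem {V : Type*} {G : SimpleGraph V} {s t : Set V} (hs : Conn G s)
    (ht : Conn G t) {z : V} (hzs : z ∈ s) (hzt : z ∈ t) : Conn G (s ∪ t) := by
  refine ⟨⟨z, Or.inl hzs⟩, ?_⟩
  intro A hA hne hcl
  have h1 : (A ∩ s).Nonempty → s ⊆ A := by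
    rintro ⟨x, hx⟩
    have := hs.2 (A ∩ s) Set.inter_subset_right ⟨x, hx⟩ (fun a ha b hb hab =>
      ⟨hcl a ha.1 b (Or.inl hb) hab, hb⟩)
    exact fun y hy => (this hy).1
  have h2 : (A ∩ t).Nonempty → t ⊆ A := by
    rintro ⟨x, hx⟩
    have := ht.2 (A ∩ t) Set.inter_subset_right ⟨x, hx⟩ (fun a ha b hb hab =>
      ⟨hcl a ha.1 b (Or.inr hb) hab, hb⟩)
    exact fun y hy => (this hy).1
  obtain ⟨x, hx⟩ := hne
  rcases hA hx with hxs | hxt
  · have h3 := h1 ⟨x, hx, hxs⟩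
    exact Set.union_subset h3 (h2 ⟨z, h3 hzs, hzt⟩)
  · have h3 := h2 ⟨x, hx, hxt⟩
    exact Set.union_subset (h1 ⟨z, h3 hzt, hzs⟩) h3

theorem conn_finite {V : Type*} {G : SimpleGraph V} {W : Set V} (hW : Conn G W) {x y : V}
    (hx : x ∈ W) (hy : y ∈ W) : ∃ W' ⊆ W, W'.Finite ∧ Conn G W' ∧ x ∈ W' ∧ y ∈ W' := by
  have := hW.2 {y | y ∈ W ∧ ∃ W' ⊆ W, W'.Finite ∧ Conn G W' ∧ x ∈ W' ∧ y ∈ W'}
    (fun y hy => hy.1)
    ⟨x, hx, {x}, Set.singleton_subset_iff.2 hx, Set.finite_singleton x, conn_singleton G x, rfl,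
      rfl⟩ (by
    rintro c ⟨_, W', h1, h2, h3, h4, h5⟩ d hd hcd
    exact ⟨hd, W' ∪ {d}, Set.union_subset h1 (Set.singleton_subset_iff.2 hd),
      h2.union (Set.finite_singleton d), h3.union (conn_singleton G d) h5 rfl hcd,
      Or.inl h4, Or.inr rfl⟩)
  exact (this hy).2

variable {Γ : Type u} [Group Γ] {S : Set Γ}

theorem cay_conn (hS : IsGen S) : Conn (cay S) Set.univ := by
  refine ⟨⟨1, trivial⟩, ?_⟩
  intro A _ hne hcl
  have h1 : ∀ t ∈ S, ∀ g : Γ, g ∈ A → g * t ∈ A := fun t ht g hg =>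
    hcl g hg _ trivial (cay_adj_mul hS g ht)
  have h2 : ∀ y : Γ, y ∈ Subgroup.closure S → ∀ g : Γ, g ∈ A ↔ g * y ∈ A := by
    intro y hy
    induction hy using Subgroup.closure_induction with
    | mem t ht =>
      intro g
      refine ⟨h1 t ht g, fun h => ?_⟩
      have := h1 t⁻¹ (hS.2.1 t ht) _ h
      rwa [mul_inv_cancel_right] at this
    | one => intro g; rw [mul_one]
    | mul x y _ _ hx hy => intro g; rw [hx g, hy (g * x), mul_assoc]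
    | inv x _ hx => intro g; rw [hx (g * x⁻¹), inv_mul_cancel_right]
  obtain ⟨g, hg⟩ := hne
  intro x _
  have h3 := (h2 (g⁻¹ * x) (by rw [hS.1]; trivial) g).1 hg
  rwa [mul_inv_cancel_left] at h3

theorem adj_left (hS : IsGen S) (c : Γ) {x y : Γ} (h : (cay S).Adj x y) :
    (cay S).Adj (c * x) (c * y) := by
  rw [cay_adj hS] at h ⊢
  have e1 : (c * x)⁻¹ * (c * y) = x⁻¹ * y := by group
  rwa [e1]

theorem conn_left (hS : IsGen S) (c : Γ) {W : Set Γ} (hW : Conn (cay S) W) :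
    Conn (cay S) ((fun x => c * x) '' W) :=
  hW.image (fun x => c * x) fun _ _ _ _ hab => Or.inr (adj_left hS c hab)

/-- The points joined to `R` outside `l`. -/
def UU (S l R : Set Γ) : Set Γ :=
  {x | ∃ W : Set Γ, Conn (cay S) W ∧ (∀ w ∈ W, w ∉ l) ∧ x ∈ W ∧ (W ∩ R).Nonempty}

theorem uu_step (hS : IsGen S) {l R : Set Γ} {x y : Γ} (hx : x ∈ UU S l R) (hxy : (cay S).Adj x y)
    (hy : y ∉ l) : y ∈ UU S l R := by
  obtain ⟨W, h1, h2, h3, h4⟩ := hx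
  refine ⟨W ∪ {y}, h1.union (conn_singleton _ y) h3 rfl hxy, ?_, Or.inr rfl, ?_⟩
  · rintro w (hw | hw)
    · exact h2 w hw
    · rw [Set.mem_singleton_iff] at hw
      rw [hw]
      exact hy
  · obtain ⟨r, hr1, hr2⟩ := h4
    exact ⟨r, Or.inl hr1, hr2⟩

theorem main (hS : IsGen S) (k : Γ) (o : ℕ) (ho : 0 < o) (hko : k ^ o = 1) (l R : Set Γ)
    (hln : l.Nonempty) (hl : ∀ x ∈ l, k * x ∉ l) (hR : R.Nonempty) (hRl : ∀ x ∈ R, x ∉ l)
    (hkR : ∀ x ∈ R, k * x ∈ R) (hkl : ∀ x ∈ l, k * x ∉ UU S l R) : False := by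
  have hdis : ∀ x ∈ UU S l R, x ∉ l := by
    rintro x ⟨W, _, h2, h3, _⟩
    exact h2 x h3
  have hkR' : ∀ n : ℕ, ∀ x ∈ R, k ^ n * x ∈ R := by
    intro n
    induction n with
    | zero => intro x hx; rwa [pow_zero, one_mul]
    | succ n ih => intro x hx; rw [pow_succ, mul_assoc]; exact ih _ (hkR x hx)
  have hkinv : k⁻¹ = k ^ (o - 1) := by
    have e1 : k ^ (o - 1) * k = 1 := by
      rw [← pow_succ, Nat.sub_add_cancel ho, hko]
    exact (eq_inv_of_mul_eq_one_left e1).symm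
  have hkR2 : ∀ x ∈ R, k⁻¹ * x ∈ R := by
    intro x hx
    rw [hkinv]
    exact hkR' _ x hx
  have h3 : ∀ x ∈ UU S l R, k⁻¹ * x ∈ UU S l R := by
    rintro x ⟨W, h1, h2, h3, h4⟩
    refine ⟨(fun x => k⁻¹ * x) '' W, conn_left hS k⁻¹ h1, ?_, ⟨x, h3, rfl⟩, ?_⟩
    · rintro _ ⟨w, hw, rfl⟩ hwl
      apply hkl _ hwl
      change k * (k⁻¹ * w) ∈ UU S l R
      rw [mul_inv_cancel_left]
      exact ⟨W, h1, h2, hw, h4⟩
    · obtain ⟨r, hr1, hr2⟩ := h4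
      exact ⟨k⁻¹ * r, ⟨r, hr1, rfl⟩, hkR2 r hr2⟩
  have h3' : ∀ n : ℕ, ∀ x ∈ UU S l R, k⁻¹ ^ n * x ∈ UU S l R := by
    intro n
    induction n with
    | zero => intro x hx; rwa [pow_zero, one_mul]
    | succ n ih => intro x hx; rw [pow_succ, mul_assoc]; exact ih _ (h3 x hx)
  have hk : k = k⁻¹ ^ (o - 1) := by
    rw [inv_pow, ← hkinv, inv_inv]
  have h4 : ∀ x ∈ UU S l R, k * x ∈ UU S l R := by
    intro x hx
    rw [hk]
    exact h3' _ x hx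
  have hRU : ∀ x ∈ R, x ∈ UU S l R := by
    intro x hx
    refine ⟨{x}, conn_singleton _ x, ?_, rfl, ⟨x, rfl, hx⟩⟩
    rintro w hw
    rw [Set.mem_singleton_iff] at hw
    rw [hw]
    exact hRl x hx
  obtain ⟨r, hr⟩ := hR
  obtain ⟨y₀, hy₀⟩ := hln
  by_cases hcl : ∀ x ∈ UU S l R, ∀ y : Γ, y ∈ (Set.univ : Set Γ) → (cay S).Adj x y → y ∈ UU S l R
  · have := (cay_conn hS).2 (UU S l R) (Set.subset_univ _) ⟨r, hRU r hr⟩ hcl
    exact hdis y₀ (this (Set.mem_univ y₀)) hy₀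
  · push Not at hcl
    obtain ⟨x, hx, y, -, hxy, hy⟩ := hcl
    have hyl : y ∈ l := by
      by_contra hyl
      exact hy (uu_step hS hx hxy hyl)
    have hkyl : k⁻¹ * y ∉ l := by
      intro h5
      have := hl _ h5
      rw [mul_inv_cancel_left] at this
      exact this hyl
    have h5 : k⁻¹ * y ∈ UU S l R := uu_step hS (h3 x hx) (adj_left hS k⁻¹ hxy) hkyl
    have h6 := h4 _ h5
    rw [mul_inv_cancel_left] at h6
    exact hy h6

theorem sl_k {a b k : Γ} {B : Set Γ} (hP : Pl S a b k B) (P : ℤ → Prop) :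
    ∀ x ∈ Sl a b B P, k * x ∈ Sl a b B P := by
  rintro x ⟨i, j, hj, y, hy, rfl⟩
  refine ⟨i, j, hj, k * y, hP.kB y hy, ?_⟩
  have c1 : k * a ^ i = a ^ i * k := ((show Commute k a from hP.ak.symm).zpow_right i).eq
  have c2 : k * b ^ j = b ^ j * k := ((show Commute k b from hP.bk.symm).zpow_right j).eq
  calc k * (a ^ i * b ^ j * y) = (k * a ^ i) * b ^ j * y := by group
    _ = a ^ i * (k * b ^ j) * y := by rw [c1]; group
    _ = a ^ i * b ^ j * (k * y) := by rw [c2]; group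

/-- **JMP.** -/
theorem jmp (hSlc : SlcStmt.{u}) : JmpStmt.{u} := by
  intro Γ _ S a b k B hP o ho hko l hl hkl L hL0 hL c
  set c' : ℤ := max c (L + 1) with hc'
  have hc1 : c ≤ c' := le_max_left _ _
  have hc2 : L + 1 ≤ c' := le_max_right _ _
  have hup : Conn (cay S) (Sl a b B (fun j => c' ≤ j)) :=
    hSlc Γ S a b k B hP _ ⟨c', le_refl c'⟩ fun i j m hi _ hij _ => le_trans hi hij
  have hdn : Conn (cay S) (Sl a b B (fun j => j ≤ -c')) :=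
    hSlc Γ S a b k B hP _ ⟨-c', le_refl _⟩ fun i j m _ hm _ hjm => le_trans hjm hm
  have hupl : ∀ x ∈ Sl a b B (fun j => c' ≤ j), x ∉ l := by
    rintro x ⟨i, j, hj, y, hy, rfl⟩ hx
    have := abs_le.1 (hL i j y hy hx)
    omega
  have hdnl : ∀ x ∈ Sl a b B (fun j => j ≤ -c'), x ∉ l := by
    rintro x ⟨i, j, hj, y, hy, rfl⟩ hx
    have := abs_le.1 (hL i j y hy hx)
    omega
  by_cases hmeet : (UU S l (Sl a b B (fun j => c' ≤ j)) ∩
      UU S l (Sl a b B (fun j => j ≤ -c'))).Nonempty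
  · obtain ⟨z, ⟨W1, a1, a2, a3, p, hp1, hp2⟩, ⟨W2, b1, b2, b3, q, hq1, hq2⟩⟩ := hmeet
    obtain ⟨W, w1, w2, w3, w4, w5⟩ := conn_finite (conn_union_mem a1 b1 a3 b3)
      (x := p) (y := q) (Or.inl hp1) (Or.inr hq1)
    refine ⟨W, w2, w3, ?_, ⟨p, w4, ?_⟩, ⟨q, w5, ?_⟩⟩
    · rw [Set.disjoint_left]
      intro x hx
      rcases w1 hx with h | h
      · exact a2 x h
      · exact b2 x h
    · obtain ⟨i, j, hj, y, hy, he⟩ := hp2
      exact ⟨i, j, le_trans hc1 hj, y, hy, he⟩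
    · obtain ⟨i, j, hj, y, hy, he⟩ := hq2
      exact ⟨i, j, by omega, y, hy, he⟩
  · exfalso
    have hkll : Conn (cay S) ((fun x => k * x) '' l) := conn_left hP.gen k hl
    have hkd : ∀ w ∈ (fun x => k * x) '' l, w ∉ l := by
      rintro _ ⟨x, hx, rfl⟩
      exact hkl x hx
    by_cases h1 : ∀ x ∈ l, k * x ∉ UU S l (Sl a b B (fun j => c' ≤ j))
    · exact main hP.gen k o ho hko l _ hl.1 hkl hup.1 hupl (sl_k hP _) h1
    by_cases h2 : ∀ x ∈ l, k * x ∉ UU S l (Sl a b B (fun j => j ≤ -c'))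
    · exact main hP.gen k o ho hko l _ hl.1 hkl hdn.1 hdnl (sl_k hP _) h2
    push Not at h1 h2
    obtain ⟨x, hx, hxU⟩ := h1
    obtain ⟨y, hy, hyU⟩ := h2
    apply hmeet
    refine ⟨k * x, hxU, ?_⟩
    obtain ⟨W, w1, w2, w3, r, hr1, hr2⟩ := hyU
    refine ⟨W ∪ (fun x => k * x) '' l, conn_union_mem w1 hkll w3 ⟨y, hy, rfl⟩, ?_,
      Or.inr ⟨x, hx, rfl⟩, ⟨r, Or.inl hr1, hr2⟩⟩
    rintro w (hw | hw)
    · exact w2 w hw
    · exact hkd w hw

end Pool.Agent.Helper7.KZ
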